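import Pool.Agent.Q7.GK.Stm
import Pool.Agent.W289.SL.Emb
import Pool.Agent.Q150.LK.Emb

/-!
# Project GK, job GC
-/

set_option autoImplicit false

namespace Pool.Agent.Q16.GK.GC

open NumberField IsDedekindDomain Filter Topology Finset
open Pool.Agent.Q7.LK
open Pool.Agent.Q7.GK
open Pool.Agent.W289.SL (IsIwasawaLog)

section

variable {p : ℕ} [Fact p.Prime]

theorem np : ‖(p : ℂ_[p])‖ = (p : ℝ)⁻¹ := Pool.Agent.W289.SL.norm_p

theorem np_pos : 0 < ‖(p : ℂ_[p])‖ := by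
  rw [np]
  exact inv_pos.2 (by exact_mod_cast (Fact.out : p.Prime).pos)

theorem np_lt : ‖(p : ℂ_[p])‖ < 1 := by
  rw [np]
  exact inv_lt_one_of_one_lt₀ (by exact_mod_cast (Fact.out : p.Prime).one_lt)

/-- bound of a convergent sum -/
theorem hasSum_le {f : ℕ → ℂ_[p]} {s : ℂ_[p]} (h : HasSum f s) {C : ℝ} (hC : 0 ≤ C)
    (hf : ∀ n, ‖f n‖ ≤ C) : ‖s‖ ≤ C := by
  refine le_of_tendsto' h.tendsto_sum_nat.norm fun n => ?_
  exact IsUltrametricDist.norm_sum_le_of_forall_le_of_nonneg hC fun i _ => hf i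

/-- bound of the terms of the logarithm -/
theorem term_le (z : ℂ_[p]) (n : ℕ) :
    ‖(-1 : ℂ_[p]) ^ n * z ^ (n + 1) / ((n : ℂ_[p]) + 1)‖ ≤ ‖z‖ ^ (n + 1) * (n + 1) := by
  have h1 := Pool.Agent.W289.SL.one_le_norm_natCast (p := p) (n + 1) (Nat.succ_ne_zero n)
  push_cast at h1
  have h2 : 0 < ‖(n : ℂ_[p]) + 1‖ := by
    by_contra h
    have h3 : ‖(n : ℂ_[p]) + 1‖ = 0 := le_antisymm (not_lt.1 h) (norm_nonneg _)
    rw [h3, zero_mul] at h1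
    linarith
  rw [norm_div, norm_mul, norm_pow, norm_pow, norm_neg, norm_one, one_pow, one_mul,
    div_le_iff₀ h2]
  have h3 : 0 ≤ ‖z‖ ^ (n + 1) := by positivity
  nlinarith

theorem log_small {Lg : ℂ_[p] → ℂ_[p]} (hL : IsIwasawaLog p Lg) {z : ℂ_[p]} {M : ℕ} (hM : 1 ≤ M)
    (hz : ‖z‖ ≤ ‖(p : ℂ_[p])‖ ^ M) : ‖Lg (1 + z)‖ ≤ ‖(p : ℂ_[p])‖ ^ M := by
  have hp0 := np_pos (p := p)
  have hp1 := np_lt (p := p)
  have hz1 : ‖z‖ < 1 := lt_of_le_of_lt hz (pow_lt_one₀ hp0.le hp1 (by omega))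
  refine hasSum_le (hL.ser z hz1) (by positivity) fun n => (term_le z n).trans ?_
  have hp2 : (2 : ℝ) ≤ p := by exact_mod_cast (Fact.out : p.Prime).two_le
  have h1 : ((n : ℝ) + 1) * ‖(p : ℂ_[p])‖ ^ n ≤ 1 := by
    rw [np, inv_pow, mul_inv_le_iff₀ (by positivity), one_mul]
    have h2 : ((n : ℝ) + 1) ≤ 2 ^ n := by
      have : n + 1 ≤ 2 ^ n := Nat.lt_two_pow_self
      exact_mod_cast this
    exact h2.trans (pow_le_pow_left₀ (by norm_num) hp2 n)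
  have h3 : ‖z‖ ^ (n + 1) ≤ ‖(p : ℂ_[p])‖ ^ M * ‖(p : ℂ_[p])‖ ^ n := by
    calc ‖z‖ ^ (n + 1) ≤ (‖(p : ℂ_[p])‖ ^ M) ^ (n + 1) := pow_le_pow_left₀ (norm_nonneg _) hz _
      _ = ‖(p : ℂ_[p])‖ ^ (M * (n + 1)) := by rw [pow_mul]
      _ ≤ ‖(p : ℂ_[p])‖ ^ (M + n) := by
        refine pow_le_pow_of_le_one hp0.le hp1.le ?_
        nlinarith
      _ = _ := pow_add _ _ _
  calc ‖z‖ ^ (n + 1) * (n + 1) ≤ ‖(p : ℂ_[p])‖ ^ M * ‖(p : ℂ_[p])‖ ^ n * (n + 1) :=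
        mul_le_mul_of_nonneg_right h3 (by positivity)
    _ = ‖(p : ℂ_[p])‖ ^ M * (((n : ℝ) + 1) * ‖(p : ℂ_[p])‖ ^ n) := by ring
    _ ≤ ‖(p : ℂ_[p])‖ ^ M * 1 := mul_le_mul_of_nonneg_left h1 (by positivity)
    _ = _ := mul_one _

theorem log_one_add_p (hp2 : p ≠ 2) {Lg : ℂ_[p] → ℂ_[p]} (hL : IsIwasawaLog p Lg) :
    Lg (1 + (p : ℂ_[p])) ≠ 0 := by
  intro h0
  have hp0 := np_pos (p := p)
  have hp1 := np_lt (p := p)
  have hp3 : (3 : ℝ) ≤ p := by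
    have h2 := (Fact.out : p.Prime).two_le
    have : 3 ≤ p := by omega
    exact_mod_cast this
  have h1 := hL.ser (p : ℂ_[p]) hp1
  rw [h0] at h1
  have h2 := (hasSum_nat_add_iff' 1).mpr h1
  have h3 := hasSum_le h2 (C := 2 / 3 * ‖(p : ℂ_[p])‖) (by positivity) (fun n => by
    refine (term_le (p : ℂ_[p]) (n + 1)).trans ?_
    push_cast
    have h4 : ((n : ℝ) + 1 + 1) * ‖(p : ℂ_[p])‖ ^ (n + 1) ≤ 2 / 3 := by
      rw [np, inv_pow, mul_inv_le_iff₀ (by positivity)]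
      have h5 : ((n : ℝ) + 1 + 1) ≤ 2 / 3 * 3 ^ (n + 1) := by
        have h6 : (n : ℝ) + 1 ≤ 3 ^ n := by
          have : n + 1 ≤ 3 ^ n := Nat.lt_pow_self (by norm_num)
          exact_mod_cast this
        have h7 : (1 : ℝ) ≤ 3 ^ n := one_le_pow₀ (by norm_num)
        rw [pow_succ]
        linarith
      exact h5.trans (mul_le_mul_of_nonneg_left (pow_le_pow_left₀ (by norm_num) hp3 _) (by norm_num))
    calc ‖(p : ℂ_[p])‖ ^ (n + 1 + 1) * ((n : ℝ) + 1 + 1) =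
        (((n : ℝ) + 1 + 1) * ‖(p : ℂ_[p])‖ ^ (n + 1)) * ‖(p : ℂ_[p])‖ := by ring
      _ ≤ 2 / 3 * ‖(p : ℂ_[p])‖ := mul_le_mul_of_nonneg_right h4 hp0.le)
  rw [Finset.sum_range_one] at h3
  simp only [pow_zero, Nat.cast_zero, zero_add, pow_one, one_mul, div_one, zero_sub, norm_neg] at h3
  linarith

end

section

variable {p : ℕ} [Fact p.Prime] {K : Type} [Field K] [NumberField K]

theorem norm_le_one {P : HeightOneSpectrum (𝓞 K)} {σ : K →+* ℂ_[p]} (hσ : Em P σ) {x : K}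
    (hx : P.valuation K x ≤ 1) : ‖σ x‖ ≤ 1 := by
  obtain ⟨a, s, has⟩ := HeightOneSpectrum.exists_primeCompl_mul_eq_of_integer P x hx
  have hs : (s : 𝓞 K) ∉ P.asIdeal := s.2
  have hs1 : ‖σ (((s : 𝓞 K)) : K)‖ = 1 := by
    refine le_antisymm (Pool.Agent.W289.SL.norm_emb_le σ _) (not_lt.1 fun h => hs ?_)
    exact (hσ _).2 h
  have h2 := congrArg (fun z => ‖σ z‖) has
  simp only [map_mul, norm_mul] at h2
  have h3 : ‖σ (algebraMap (𝓞 K) K a)‖ ≤ 1 := Pool.Agent.W289.SL.norm_emb_le σ a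
  have h4 : ‖σ (algebraMap (𝓞 K) K (s : 𝓞 K))‖ = 1 := hs1
  rw [h4] at h2
  linarith

theorem norm_sub_one {P : HeightOneSpectrum (𝓞 K)} {σ : K →+* ℂ_[p]} (hσ : Em P σ) {x : K} {M : ℕ}
    (hx : P.valuation K (x - 1) ≤ P.valuation K ((p : K) ^ M)) :
    ‖σ x - 1‖ ≤ ‖(p : ℂ_[p])‖ ^ M := by
  have hp : (p : K) ^ M ≠ 0 := pow_ne_zero _ (by exact_mod_cast (Fact.out : p.Prime).ne_zero)
  have h1 : P.valuation K ((x - 1) / (p : K) ^ M) ≤ 1 := by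
    rw [map_div₀, div_le_one₀ (zero_lt_iff.2 ((Valuation.ne_zero_iff _).2 hp))]
    exact hx
  have h2 := norm_le_one hσ h1
  rw [map_div₀, map_sub, map_one, map_pow, map_natCast, norm_div, norm_pow,
    div_le_one (pow_pos np_pos M)] at h2
  exact h2

theorem lam_small {Lg : ℂ_[p] → ℂ_[p]} (hL : IsIwasawaLog p Lg) (P : HeightOneSpectrum (𝓞 K))
    {x : K} {M : ℕ} (hM : 1 ≤ M) (hx : P.valuation K (x - 1) ≤ P.valuation K ((p : K) ^ M)) :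
    ‖lam Lg P x‖ ≤ ‖(p : ℂ_[p])‖ ^ M := by
  classical
  unfold lam
  refine IsUltrametricDist.norm_sum_le_of_forall_le_of_nonneg
    (pow_nonneg (norm_nonneg _) _) fun σ _ => ?_
  split_ifs with h
  · have h1 := log_small hL hM (norm_sub_one h hx)
    rwa [add_sub_cancel] at h1
  · rw [norm_zero]
    exact pow_nonneg (norm_nonneg _) _

theorem exists_em (P : HeightOneSpectrum (𝓞 K)) (hP : (p : 𝓞 K) ∈ P.asIdeal) :
    ∃ σ : K →+* ℂ_[p], Em P σ := by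
  obtain ⟨σ, hσ⟩ := Pool.Agent.Q150.LK.exists_emb P hP
  refine ⟨(algebraMap (PadicAlgCl p) ℂ_[p]).comp σ, fun x => ?_⟩
  rw [hσ, Pool.Agent.Q150.LK.mem_PI]
  have h1 : ‖((algebraMap (PadicAlgCl p) ℂ_[p]).comp σ) (x : K)‖ = ‖σ (x : K)‖ :=
    PadicComplex.norm_extends p (σ (x : K))
  rw [h1]

theorem lam_ne {Lg : ℂ_[p] → ℂ_[p]} (hp2 : p ≠ 2) (hL : IsIwasawaLog p Lg)
    (P : HeightOneSpectrum (𝓞 K)) (hP : (p : 𝓞 K) ∈ P.asIdeal) :
    lam Lg P (1 + (p : K)) ≠ 0 := by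
  classical
  unfold lam
  have h1 : ∀ σ : K →+* ℂ_[p], σ (1 + (p : K)) = 1 + (p : ℂ_[p]) := by
    intro σ
    rw [map_add, map_one, map_natCast]
  simp only [h1]
  rw [← Finset.sum_filter, Finset.sum_const, nsmul_eq_mul]
  refine mul_ne_zero ?_ (log_one_add_p hp2 hL)
  obtain ⟨σ, hσ⟩ := exists_em P hP
  have h2 : (Finset.univ.filter fun σ : K →+* ℂ_[p] => Em P σ).card ≠ 0 :=
    Finset.card_ne_zero_of_mem (Finset.mem_filter.2 ⟨Finset.mem_univ σ, hσ⟩)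
  exact_mod_cast h2

theorem norm_coe (r : ℤ_[p]) : ‖((r : ℚ_[p]) : ℂ_[p])‖ = ‖r‖ := by
  have h := PadicComplex.norm_extends' (p := p) (r : ℚ_[p])
  have h2 : ‖(r : ℚ_[p])‖ = ‖r‖ := PadicInt.norm_def.symm
  rw [← h2, ← h]

end

theorem gc (h : S_GQ) : S_GC := by
  intro p _ hp2 Lg hL K _ _ P hP
  obtain ⟨-, hint⟩ := h p hp2 Lg hL K P hP
  refine ⟨fun N => ⟨N + 1, fun x hx => ?_⟩, ?_⟩
  · refine (lam_small hL P (by omega) hx).trans ?_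
    exact pow_le_pow_of_le_one np_pos.le np_lt.le (by omega)
  · have hval : ∀ x : K, x ≠ 0 → lam Lg P x ≠ 0 → ∃ n : ℕ, ‖lam Lg P x‖ = ‖(p : ℂ_[p])‖ ^ n := by
      intro x hx hne
      obtain ⟨r, hr⟩ := hint x hx
      have hr0 : r ≠ 0 := by
        rintro rfl
        apply hne
        rw [hr]
        simp
      refine ⟨r.valuation, ?_⟩
      rw [hr, norm_coe, PadicInt.norm_eq_zpow_neg_valuation hr0, np, inv_pow, zpow_neg, zpow_natCast]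
    have h1p : (1 + (p : K)) ≠ 0 := by
      have : ((1 + p : ℕ) : K) ≠ 0 := by exact_mod_cast (by omega : 1 + p ≠ 0)
      push_cast at this
      exact this
    have hex : ∃ n : ℕ, ∃ x : K, x ≠ 0 ∧ lam Lg P x ≠ 0 ∧ ‖lam Lg P x‖ = ‖(p : ℂ_[p])‖ ^ n := by
      obtain ⟨n, hn⟩ := hval (1 + (p : K)) h1p (lam_ne hp2 hL P hP)
      exact ⟨n, 1 + (p : K), h1p, lam_ne hp2 hL P hP, hn⟩
    classical
    obtain ⟨x₀, hx₀, hne, hn₀⟩ := Nat.find_spec hex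
    refine ⟨x₀, hx₀, hne, fun x hx => ?_⟩
    by_cases hz : lam Lg P x = 0
    · rw [hz, norm_zero]
      exact norm_nonneg _
    · obtain ⟨n, hn⟩ := hval x hx hz
      have h2 : Nat.find hex ≤ n := Nat.find_min' hex ⟨x, hx, hz, hn⟩
      rw [hn, hn₀]
      exact pow_le_pow_of_le_one np_pos.le np_lt.le h2

end Pool.Agent.Q16.GK.GC
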