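import Pool.Agent.Q7.GK.Stm
import Pool.Agent.W289.SL.Emb

/-!
# Project GK, job GN
-/

set_option autoImplicit false

namespace Pool.Agent.Q16.GK.GN

open NumberField IsDedekindDomain Filter Topology Finset
open Pool.Agent.Q7.LK
open Pool.Agent.Q7.LS (Ab)
open Pool.Agent.Q7.GK
open Pool.Agent.W289.SL (IsIwasawaLog)

section

variable {p : ℕ} [Fact p.Prime] {K : Type} [Field K] [NumberField K]

theorem norm_p_lt : ‖(p : ℂ_[p])‖ < 1 := by
  rw [Pool.Agent.W289.SL.norm_p]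
  exact inv_lt_one_of_one_lt₀ (by exact_mod_cast (Fact.out : p.Prime).one_lt)

/-- the prime ideal of an embedding -/
def PC (σ : K →+* ℂ_[p]) : Ideal (𝓞 K) where
  carrier := {x | ‖σ (x : K)‖ < 1}
  add_mem' {a b} ha hb := by
    change ‖σ ((a : K) + (b : K))‖ < 1
    rw [map_add]
    exact lt_of_le_of_lt (IsUltrametricDist.norm_add_le_max _ _) (max_lt ha hb)
  zero_mem' := by
    change ‖σ (0 : K)‖ < 1
    rw [map_zero, norm_zero]
    exact one_pos
  smul_mem' c x hx := by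
    change ‖σ ((c : K) * (x : K))‖ < 1
    rw [map_mul, norm_mul]
    exact lt_of_le_of_lt (mul_le_of_le_one_left (norm_nonneg _)
      (Pool.Agent.W289.SL.norm_emb_le σ c)) hx

theorem mem_PC {σ : K →+* ℂ_[p]} {x : 𝓞 K} : x ∈ PC σ ↔ ‖σ (x : K)‖ < 1 := Iff.rfl

theorem PC_prime (σ : K →+* ℂ_[p]) : (PC σ).IsPrime := by
  constructor
  · intro h
    have h1 : (1 : 𝓞 K) ∈ PC σ := by rw [h]; trivial
    have h2 : ‖σ (1 : K)‖ < 1 := h1
    rw [map_one, norm_one] at h2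
    exact lt_irrefl _ h2
  · intro x y hxy
    have hxy' : ‖σ ((x : K) * (y : K))‖ < 1 := hxy
    rw [map_mul, norm_mul] at hxy'
    by_contra hcon
    push Not at hcon
    have h1 : 1 ≤ ‖σ (x : K)‖ := not_lt.1 hcon.1
    have h2 : 1 ≤ ‖σ (y : K)‖ := not_lt.1 hcon.2
    exact absurd hxy' (not_lt.2 (one_le_mul_of_one_le_of_one_le h1 h2))

theorem p_mem (σ : K →+* ℂ_[p]) : (p : 𝓞 K) ∈ PC σ := by
  have h : ‖σ ((p : ℕ) : K)‖ < 1 := by
    rw [map_natCast]
    exact norm_p_lt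
  exact h

/-- the prime of an embedding -/
def oE (σ : K →+* ℂ_[p]) : HeightOneSpectrum (𝓞 K) where
  asIdeal := PC σ
  isPrime := PC_prime σ
  ne_bot := by
    intro h
    have h1 := p_mem σ
    rw [h, Ideal.mem_bot] at h1
    exact (Fact.out : p.Prime).ne_zero (by exact_mod_cast h1)

theorem em_iff {P : HeightOneSpectrum (𝓞 K)} {σ : K →+* ℂ_[p]} : Em P σ ↔ oE σ = P := by
  constructor
  · intro h
    apply HeightOneSpectrum.ext
    ext x
    exact (h x).symm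
  · rintro rfl x
    exact Iff.rfl

end

section

variable {p : ℕ} [Fact p.Prime] {F L : Type} [Field F] [NumberField F] [Field L] [NumberField L]
  [Algebra F L]

theorem ab_iff {v : HeightOneSpectrum (𝓞 F)} {σ : L →+* ℂ_[p]} :
    Ab v (oE σ) ↔ oE (σ.comp (algebraMap F L)) = v := by
  have key : ∀ x : 𝓞 F, algebraMap (𝓞 F) (𝓞 L) x ∈ (oE σ).asIdeal ↔
      x ∈ (oE (σ.comp (algebraMap F L))).asIdeal := fun x => Iff.rfl
  constructor
  · intro h
    have h1 : v.asIdeal ≤ (oE (σ.comp (algebraMap F L))).asIdeal := by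
      intro x hx
      rw [← key]
      exact h (Ideal.mem_map_of_mem _ hx)
    apply HeightOneSpectrum.ext
    exact (v.isMaximal.eq_of_le (oE (σ.comp (algebraMap F L))).isPrime.ne_top h1).symm
  · rintro rfl
    unfold Pool.Agent.Q7.LS.Ab
    rw [Ideal.map_le_iff_le_comap]
    intro x hx
    exact (key x).2 hx

theorem finite_ab (v : HeightOneSpectrum (𝓞 F)) :
    {P : HeightOneSpectrum (𝓞 L) | Ab v P}.Finite := by
  have hne : v.asIdeal.map (algebraMap (𝓞 F) (𝓞 L)) ≠ ⊥ := by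
    obtain ⟨x, hx, hx0⟩ := Submodule.exists_mem_ne_zero_of_ne_bot v.ne_bot
    intro h
    have h1 := Ideal.mem_map_of_mem (algebraMap (𝓞 F) (𝓞 L)) hx
    rw [h, Ideal.mem_bot] at h1
    apply hx0
    have h2 : algebraMap F L (x : F) = 0 := congrArg (fun z : 𝓞 L => (z : L)) h1
    rw [map_eq_zero] at h2
    exact RingOfIntegers.coe_eq_zero_iff.1 h2
  refine (Ideal.finite_factors hne).subset ?_
  intro P hP
  exact Ideal.dvd_iff_le.2 hP

theorem log_prod {Lg : ℂ_[p] → ℂ_[p]} (hL : IsIwasawaLog p Lg) {ι : Type} (s : Finset ι)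
    (f : ι → ℂ_[p]) (hf : ∀ i ∈ s, f i ≠ 0) : Lg (∏ i ∈ s, f i) = ∑ i ∈ s, Lg (f i) := by
  classical
  induction s using Finset.induction_on with
  | empty => simpa using hL.one
  | insert a s ha ih =>
    rw [Finset.prod_insert ha, Finset.sum_insert ha, hL.mul _ _ (hf a (Finset.mem_insert_self a s))
      (Finset.prod_ne_zero_iff.2 fun i hi => hf i (Finset.mem_insert_of_mem hi)),
      ih fun i hi => hf i (Finset.mem_insert_of_mem hi)]

open Classical in
theorem norm_fiber (τ : F →+* ℂ_[p]) (x : L) : τ (Algebra.norm F x) =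
    ∏ σ : L →+* ℂ_[p] with σ.comp (algebraMap F L) = τ, σ x := by
  let _ : Algebra F ℂ_[p] := τ.toAlgebra
  have h := Algebra.norm_eq_prod_embeddings F ℂ_[p] x
  have h1 : algebraMap F ℂ_[p] (Algebra.norm F x) = τ (Algebra.norm F x) := rfl
  rw [← h1, h]
  refine Finset.prod_bij (fun (σ : L →ₐ[F] ℂ_[p]) _ => σ.toRingHom) ?_ ?_ ?_ ?_
  · intro σ _
    rw [Finset.mem_filter]
    refine ⟨Finset.mem_univ _, ?_⟩
    ext a
    exact σ.commutes a
  · intro σ _ σ' _ h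
    exact AlgHom.ext fun a => RingHom.congr_fun h a
  · intro σ hσ
    rw [Finset.mem_filter] at hσ
    exact ⟨{ σ with commutes' := fun a => RingHom.congr_fun hσ.2 a }, Finset.mem_univ _, rfl⟩
  · intro σ _
    rfl

theorem gn1 {Lg : ℂ_[p] → ℂ_[p]} (hL : IsIwasawaLog p Lg) (v : HeightOneSpectrum (𝓞 F)) :
    ∃ A : Finset (HeightOneSpectrum (𝓞 L)), (∀ P, P ∈ A ↔ Ab v P) ∧
    ∀ x : L, x ≠ 0 → ∑ P ∈ A, lam Lg P x = lam Lg v (Algebra.norm F x) := by
  classical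
  refine ⟨(finite_ab v).toFinset, fun P => by simp, fun x hx => ?_⟩
  have e1 : ∑ P ∈ (finite_ab (L := L) v).toFinset, lam Lg P x =
      ∑ σ : L →+* ℂ_[p], if Em v (σ.comp (algebraMap F L)) then Lg (σ x) else 0 := by
    unfold lam
    rw [Finset.sum_comm]
    refine Finset.sum_congr rfl fun σ _ => ?_
    by_cases h : Em v (σ.comp (algebraMap F L))
    · rw [if_pos h]
      rw [em_iff, ← ab_iff] at h
      rw [Finset.sum_eq_single (oE σ)]
      · rw [if_pos (em_iff.2 rfl)]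
      · intro P _ hP
        rw [if_neg fun h' => hP (em_iff.1 h').symm]
      · intro h'
        exact absurd ((finite_ab v).mem_toFinset.2 h) h'
    · rw [if_neg h]
      refine Finset.sum_eq_zero fun P hP => ?_
      rw [if_neg]
      intro h'
      rw [em_iff] at h'
      apply h
      rw [em_iff, ← ab_iff, h']
      exact (finite_ab v).mem_toFinset.1 hP
  rw [e1]
  unfold lam
  rw [← Finset.sum_fiberwise (s := Finset.univ) (g := fun σ : L →+* ℂ_[p] => σ.comp (algebraMap F L))]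
  refine Finset.sum_congr rfl fun τ _ => ?_
  by_cases h : Em v τ
  · rw [if_pos h, norm_fiber τ x, log_prod hL _ _ fun σ _ => (map_ne_zero σ).2 hx]
    refine Finset.sum_congr rfl fun σ hσ => ?_
    rw [Finset.mem_filter] at hσ
    rw [hσ.2, if_pos h]
  · rw [if_neg h]
    refine Finset.sum_eq_zero fun σ hσ => ?_
    rw [Finset.mem_filter] at hσ
    rw [hσ.2, if_neg h]

/-- the automorphism of the ring of integers -/
noncomputable def gJ (σ : L ≃ₐ[F] L) : 𝓞 L ≃+* 𝓞 L := RingOfIntegers.mapRingEquiv (σ : L ≃+* L)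

omit [NumberField F] [NumberField L] in
theorem gJ_coe (σ : L ≃ₐ[F] L) (x : 𝓞 L) : ((gJ σ x : 𝓞 L) : L) = σ (x : L) := rfl

/-- the conjugate prime -/
noncomputable def cj (σ : L ≃ₐ[F] L) (P : HeightOneSpectrum (𝓞 L)) : HeightOneSpectrum (𝓞 L) where
  asIdeal := P.asIdeal.comap (gJ σ : 𝓞 L →+* 𝓞 L)
  isPrime := Ideal.comap_isPrime _ _
  ne_bot := by
    intro h
    apply P.ne_bot
    rw [eq_bot_iff]
    intro x hx
    obtain ⟨y, rfl⟩ := (gJ σ).surjective x
    have h1 : y ∈ P.asIdeal.comap (gJ σ : 𝓞 L →+* 𝓞 L) := hx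
    rw [h, Ideal.mem_bot] at h1
    rw [h1, map_zero]
    exact Ideal.zero_mem _

omit [NumberField F] in
theorem cj_pow (σ : L ≃ₐ[F] L) (P : HeightOneSpectrum (𝓞 L)) (n : ℕ) (x : 𝓞 L) :
    x ∈ (cj σ P).asIdeal ^ n ↔ gJ σ x ∈ P.asIdeal ^ n := by
  have h1 : (cj σ P).asIdeal = P.asIdeal.map ((gJ σ : 𝓞 L ≃+* 𝓞 L).symm : 𝓞 L →+* 𝓞 L) := by
    exact (Ideal.map_symm (gJ σ : 𝓞 L ≃+* 𝓞 L)).symm
  rw [h1, ← Ideal.map_pow]
  have h2 : (P.asIdeal ^ n).map ((gJ σ : 𝓞 L ≃+* 𝓞 L).symm : 𝓞 L →+* 𝓞 L) =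
      (P.asIdeal ^ n).comap (gJ σ : 𝓞 L ≃+* 𝓞 L) := Ideal.map_symm (gJ σ : 𝓞 L ≃+* 𝓞 L)
  rw [h2]
  exact Iff.rfl

omit [NumberField F] in
theorem cj_int (σ : L ≃ₐ[F] L) (P : HeightOneSpectrum (𝓞 L)) (x : 𝓞 L) :
    P.intValuation (gJ σ x) = (cj σ P).intValuation x := by
  by_cases hx : x = 0
  · rw [hx, map_zero, map_zero, map_zero]
  · have hx' : gJ σ x ≠ 0 := by
      intro h
      exact hx ((gJ σ).injective (by rw [h, map_zero]))
    apply le_antisymm
    · rw [(cj σ P).intValuation_if_neg hx, P.intValuation_le_pow_iff_mem, ← cj_pow,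
        ← (cj σ P).intValuation_le_pow_iff_mem, (cj σ P).intValuation_if_neg hx]
    · rw [P.intValuation_if_neg hx', (cj σ P).intValuation_le_pow_iff_mem, cj_pow,
        ← P.intValuation_le_pow_iff_mem, P.intValuation_if_neg hx']

omit [NumberField F] in
theorem cj_val (σ : L ≃ₐ[F] L) (P : HeightOneSpectrum (𝓞 L)) (x : L) :
    P.valuation L (σ x) = (cj σ P).valuation L x := by
  obtain ⟨a, b, hb, rfl⟩ := IsFractionRing.div_surjective (A := 𝓞 L) x
  have h1 : ∀ a : 𝓞 L, P.valuation L (σ (algebraMap (𝓞 L) L a)) =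
      (cj σ P).valuation L (algebraMap (𝓞 L) L a) := by
    intro a
    have h2 : σ (algebraMap (𝓞 L) L a) = algebraMap (𝓞 L) L (gJ σ a) := (gJ_coe σ a).symm
    rw [h2, HeightOneSpectrum.valuation_of_algebraMap, HeightOneSpectrum.valuation_of_algebraMap,
      cj_int]
  rw [map_div₀, map_div₀, map_div₀, h1, h1]

theorem cj_ab {v : HeightOneSpectrum (𝓞 F)} (σ : L ≃ₐ[F] L) {P : HeightOneSpectrum (𝓞 L)}
    (h : Pool.Agent.Q7.LS.Ab v P) : Pool.Agent.Q7.LS.Ab v (cj σ P) := by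
  unfold Pool.Agent.Q7.LS.Ab at h ⊢
  rw [Ideal.map_le_iff_le_comap] at h ⊢
  intro x hx
  have h1 := h hx
  change gJ σ (algebraMap (𝓞 F) (𝓞 L) x) ∈ P.asIdeal
  have h2 : gJ σ (algebraMap (𝓞 F) (𝓞 L) x) = algebraMap (𝓞 F) (𝓞 L) x := by
    apply RingOfIntegers.ext
    exact σ.commutes (x : F)
  rw [h2]
  exact h1

theorem cj_lam (Lg : ℂ_[p] → ℂ_[p]) (σ : L ≃ₐ[F] L) (P : HeightOneSpectrum (𝓞 L)) (x : L) :
    lam Lg (cj σ P) x = lam Lg P (σ x) := by
  classical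
  unfold lam
  rw [← Finset.sum_filter, ← Finset.sum_filter]
  symm
  refine Finset.sum_bij (fun (τ : L →+* ℂ_[p]) _ => τ.comp (σ : L →+* L)) ?_ ?_ ?_ ?_
  · intro τ hτ
    rw [Finset.mem_filter] at hτ ⊢
    refine ⟨Finset.mem_univ _, fun y => ?_⟩
    exact hτ.2 (gJ σ y)
  · intro τ _ τ' _ h
    ext y
    have h1 := RingHom.congr_fun h (σ.symm y)
    simpa using h1
  · intro τ' hτ'
    rw [Finset.mem_filter] at hτ'
    refine ⟨τ'.comp (σ.symm : L →+* L), ?_, ?_⟩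
    · rw [Finset.mem_filter]
      refine ⟨Finset.mem_univ _, fun y => ?_⟩
      have h1 := hτ'.2 ((gJ σ).symm y)
      have h2 : (gJ σ).symm y ∈ (cj σ P).asIdeal ↔ y ∈ P.asIdeal := by
        change gJ σ ((gJ σ).symm y) ∈ P.asIdeal ↔ y ∈ P.asIdeal
        rw [RingEquiv.apply_symm_apply]
      rw [h2] at h1
      exact h1
    · ext y
      simp
  · intro τ _
    rfl

end

theorem gn : S_GN := by
  intro p _ Lg hL F L _ _ _ _ _
  refine ⟨fun v _ => gn1 hL v, fun σ P => ⟨cj σ P, fun v hv => cj_ab σ hv, fun x => (cj_val σ P x).symm,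
    fun x => cj_lam Lg σ P x⟩⟩

end Pool.Agent.Q16.GK.GN
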