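import Pool.Agent.Q7.GK.Stm
import Pool.Agent.Q252.LS.NSP

/-!
# Project GK, job GS
-/

set_option autoImplicit false

namespace Pool.Agent.Q16.GK.GS

open NumberField IsDedekindDomain Filter Topology Finset
open Pool.Agent.Q7.LK
open Pool.Agent.Q7.LS (S_SPL)
open Pool.Agent.Q7.GK
open Pool.Agent.TeamU (Over act act_one act_mul exists_act val_act val_act')
open Pool.Agent.W289.SL (IsIwasawaLog)
open Pool.Agent.Q252.LS (isGalois_kum over_of_ab approx)

theorem eq_of_val {K : Type} [Field K] [NumberField K] {P Q : HeightOneSpectrum (𝓞 K)}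
    (h : ∀ x : K, P.valuation K x = Q.valuation K x) : P = Q := by
  apply HeightOneSpectrum.ext
  ext x
  rw [← P.valuation_lt_one_iff_mem (K := K) x, ← Q.valuation_lt_one_iff_mem (K := K) x, h]

section

variable {p : ℕ} [Fact p.Prime] {F L : Type} [Field F] [NumberField F] [Field L] [NumberField L]
  [Algebra F L]

theorem lam_act (hN : S_GN) {Lg : ℂ_[p] → ℂ_[p]} (hL : IsIwasawaLog p Lg) (σ : L ≃ₐ[F] L)
    (P : HeightOneSpectrum (𝓞 L)) (x : L) : lam Lg (act σ⁻¹ P) x = lam Lg P (σ x) := by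
  obtain ⟨-, h2⟩ := hN p Lg hL F L
  obtain ⟨P', -, hv, hl⟩ := h2 σ P
  have h3 : P' = act σ⁻¹ P := by
    refine eq_of_val fun y => ?_
    rw [hv, val_act']
    rfl
  rw [← h3, hl]

/-- the decomposition groups are trivial -/
theorem free (hS : S_SPL) (hp2 : p ≠ 2) {ζ d : F} (hζ : IsPrimitiveRoot ζ p) (hK : Kum p F L d)
    (hd : ¬ IsPow p d) {v : HeightOneSpectrum (𝓞 F)} (hv : Lpw p v d) {P : HeightOneSpectrum (𝓞 L)}
    (hP : Pool.Agent.Q7.LS.Ab v P) : ∀ σ : L ≃ₐ[F] L, σ ≠ 1 → act σ P ≠ P := by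
  have hp : p.Prime := Fact.out
  have hG : IsGalois F L := isGalois_kum hζ hK hd
  have hcard : Nat.card (L ≃ₐ[F] L) = p := by rw [IsGalois.card_aut_eq_finrank, hK.deg]
  intro σ hσ hσP
  have hpow : ∀ n : ℕ, act (σ ^ n) P = P := by
    intro n
    induction n with
    | zero => rw [pow_zero, act_one]
    | succ n ih => rw [pow_succ, act_mul, hσP, ih]
  have hall : ∀ Q : HeightOneSpectrum (𝓞 L), Pool.Agent.Q7.LS.Ab v Q → Q = P := by
    intro Q hQ
    obtain ⟨g, hg⟩ := exists_act (over_of_ab hP) (over_of_ab hQ)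
    obtain ⟨n, hn⟩ := mem_powers_of_prime_card hcard hσ (g' := g)
    rw [← hg, ← hn]
    exact hpow n
  obtain ⟨f, hf, hfa⟩ := hS p hp2 F L ζ d hζ hK hd v hv
  have h0 : (⟨0, hp.pos⟩ : Fin p) ≠ ⟨1, hp.one_lt⟩ := by
    intro h
    have := congrArg Fin.val h
    simp at this
  exact h0 (hf ((hall _ (hfa _)).trans (hall _ (hfa _)).symm))

theorem card_eq (hS : S_SPL) (hp2 : p ≠ 2) {ζ d : F} (hζ : IsPrimitiveRoot ζ p) (hK : Kum p F L d)
    (hd : ¬ IsPow p d) {v : HeightOneSpectrum (𝓞 F)} (hv : Lpw p v d)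
    {A : Finset (HeightOneSpectrum (𝓞 L))} (hA : ∀ P, P ∈ A ↔ Pool.Agent.Q7.LS.Ab v P) : A.card = p := by
  classical
  have hG : IsGalois F L := isGalois_kum hζ hK hd
  have hcard : Nat.card (L ≃ₐ[F] L) = p := by rw [IsGalois.card_aut_eq_finrank, hK.deg]
  obtain ⟨f, hf, hfa⟩ := hS p hp2 F L ζ d hζ hK hd v hv
  refine le_antisymm ?_ ?_
  · rcases A.eq_empty_or_nonempty with rfl | ⟨P0, hP0⟩
    · simp
    · have hsub : A ⊆ (univ : Finset (L ≃ₐ[F] L)).image (fun σ => act σ P0) := by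
        intro P hP
        obtain ⟨σ, hσ⟩ := exists_act (over_of_ab ((hA P0).1 hP0)) (over_of_ab ((hA P).1 hP))
        exact mem_image.2 ⟨σ, mem_univ σ, hσ⟩
      calc A.card ≤ _ := card_le_card hsub
        _ ≤ (univ : Finset (L ≃ₐ[F] L)).card := card_image_le
        _ = p := by rw [card_univ, ← Nat.card_eq_fintype_card, hcard]
  · have h1 : (univ : Finset (Fin p)).image f ⊆ A := by
      intro P hP
      obtain ⟨i, -, rfl⟩ := mem_image.1 hP
      exact (hA _).2 (hfa i)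
    calc p = (univ : Finset (Fin p)).card := by rw [card_univ, Fintype.card_fin]
      _ = ((univ : Finset (Fin p)).image f).card := (card_image_of_injective _ hf).symm
      _ ≤ A.card := card_le_card h1

theorem lam_pow (hQ : S_GQ) (hp2 : p ≠ 2) {Lg : ℂ_[p] → ℂ_[p]} (hL : IsIwasawaLog p Lg)
    {v : HeightOneSpectrum (𝓞 F)} (hv : Dp p v) {x : F} (hx : x ≠ 0) (n : ℕ) :
    lam Lg v (x ^ (n + 1)) = (n + 1) * lam Lg v x := by
  obtain ⟨hmul, -⟩ := hQ p hp2 Lg hL F v hv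
  induction n with
  | zero => simp
  | succ n ih =>
    rw [pow_succ, hmul _ _ (pow_ne_zero _ hx) hx, ih]
    push_cast
    ring

theorem lam_base (hS : S_SPL) (hQ : S_GQ) (hN : S_GN) (hp2 : p ≠ 2) {Lg : ℂ_[p] → ℂ_[p]}
    (hL : IsIwasawaLog p Lg) {ζ d : F} (hζ : IsPrimitiveRoot ζ p) (hK : Kum p F L d)
    (hd : ¬ IsPow p d) {v : HeightOneSpectrum (𝓞 F)} (hvp : Dp p v) (hv : Lpw p v d)
    {P : HeightOneSpectrum (𝓞 L)} (hP : Pool.Agent.Q7.LS.Ab v P) {x : F} (hx : x ≠ 0) :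
    lam Lg P (algebraMap F L x) = lam Lg v x := by
  classical
  have hp : p.Prime := Fact.out
  have hG : IsGalois F L := isGalois_kum hζ hK hd
  obtain ⟨A, hA, hAs⟩ := (hN p Lg hL F L).1 v hvp
  have h1 := hAs (algebraMap F L x) ((map_ne_zero _).2 hx)
  have h2 : ∀ Q ∈ A, lam Lg Q (algebraMap F L x) = lam Lg P (algebraMap F L x) := by
    intro Q hQ'
    obtain ⟨g, hg⟩ := exists_act (over_of_ab hP) (over_of_ab ((hA Q).1 hQ'))
    have h3 := lam_act hN hL g⁻¹ P (algebraMap F L x)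
    rw [inv_inv, hg, AlgEquiv.commutes] at h3
    exact h3
  rw [Finset.sum_congr rfl h2, Finset.sum_const, card_eq hS hp2 hζ hK hd hv hA, nsmul_eq_mul,
    Algebra.norm_algebraMap, hK.deg] at h1
  obtain ⟨n, hn⟩ : ∃ n, p = n + 1 := ⟨p - 1, by have := hp.pos; omega⟩
  have h4 : lam Lg v (x ^ p) = (p : ℂ_[p]) * lam Lg v x := by
    have h5 := lam_pow hQ hp2 hL hvp hx n
    have h6 : ((n : ℂ_[p]) + 1) = (p : ℂ_[p]) := by
      have : ((n + 1 : ℕ) : ℂ_[p]) = ((p : ℕ) : ℂ_[p]) := congrArg _ hn.symm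
      push_cast at this
      exact this
    rw [h6, ← hn] at h5
    exact h5
  rw [h4] at h1
  have hp0 : (p : ℂ_[p]) ≠ 0 := by exact_mod_cast hp.ne_zero
  exact mul_left_cancel₀ hp0 h1

end

theorem gs (hS : S_SPL) (hQ : S_GQ) (hN : S_GN) (hC : S_GC) : S_GS := by
  intro p _ hp2 Lg hL F L _ _ _ _ _ ζ d hζ hK hd v hvp hv P hP
  have hp : p.Prime := Fact.out
  have hG : IsGalois F L := isGalois_kum hζ hK hd
  refine ⟨fun x hx => lam_base hS hQ hN hp2 hL hζ hK hd hvp hv hP hx, fun z hz N => ?_⟩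
  have hPp : (p : 𝓞 L) ∈ P.asIdeal := by
    have h1 := hP (Ideal.mem_map_of_mem (algebraMap (𝓞 F) (𝓞 L)) hvp)
    rwa [map_natCast] at h1
  obtain ⟨M, hM⟩ := (hC p hp2 Lg hL L P hPp).1 N
  have hfree := free hS hp2 hζ hK hd hv hP
  -- an integral multiple
  obtain ⟨m, r, hm, hr⟩ : ∃ (m : F) (r : 𝓞 L), m ≠ 0 ∧ (r : L) = algebraMap F L m * z := by
    obtain ⟨⟨k, hk⟩, hk2⟩ := IsIntegral.exists_multiple_integral_of_isLocalization (nonZeroDivisors ℤ) (Rₘ := ℚ) z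
      (Algebra.IsIntegral.isIntegral (R := ℚ) z)
    refine ⟨(k : F), ⟨(k : L) * z, ?_⟩, ?_, ?_⟩
    · have h1 : (⟨k, hk⟩ : nonZeroDivisors ℤ) • z = (k : L) * z := by
        rw [Submonoid.mk_smul, zsmul_eq_mul]
      rw [h1] at hk2
      exact hk2
    · exact_mod_cast nonZeroDivisors.ne_zero hk
    · rw [map_intCast]
      rfl
  have hm' : algebraMap F L m ≠ 0 := (map_ne_zero _).2 hm
  have hr0 : (r : L) ≠ 0 := by
    rw [hr]
    exact mul_ne_zero hm' hz
  obtain ⟨a, ha⟩ : ∃ a : ℤ, P.valuation L (r : L) = WithZero.exp a := ⟨WithZero.log (P.valuation L (r : L)),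
    (WithZero.exp_log ((Valuation.ne_zero_iff _).2 hr0)).symm⟩
  have hpM : ((p : L) ^ M) ≠ 0 := pow_ne_zero _ (by exact_mod_cast hp.ne_zero)
  obtain ⟨b, hb⟩ : ∃ b : ℤ, P.valuation L ((p : L) ^ M) = WithZero.exp b :=
    ⟨WithZero.log (P.valuation L ((p : L) ^ M)), (WithZero.exp_log ((Valuation.ne_zero_iff _).2 hpM)).symm⟩
  obtain ⟨N', hN1, hN2⟩ : ∃ N' : ℕ, -(N' : ℤ) < a ∧ -(N' : ℤ) - a ≤ b := by
    refine ⟨a.natAbs + b.natAbs + 1, ?_, ?_⟩ <;> omega
  obtain ⟨y, hy⟩ := approx P hfree N' r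
  have hyr : P.valuation L (algebraMap F L y) = WithZero.exp a := by
    rw [← ha]
    have h1 : algebraMap F L y = (r : L) + (algebraMap F L y - r) := by ring
    rw [h1]
    refine Valuation.map_add_eq_of_lt_left _ ?_
    rw [ha]
    exact hy.trans_lt (WithZero.exp_lt_exp.2 hN1)
  have hy0 : y ≠ 0 := by
    rintro rfl
    rw [map_zero, map_zero] at hyr
    exact WithZero.exp_ne_zero hyr.symm
  have hy0' : algebraMap F L y ≠ 0 := (map_ne_zero _).2 hy0
  have hx0 : y / m ≠ 0 := div_ne_zero hy0 hm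
  refine ⟨y / m, hx0, ?_⟩
  have hx0' : algebraMap F L (y / m) ≠ 0 := (map_ne_zero _).2 hx0
  have h1 : z / algebraMap F L (y / m) - 1 = -((algebraMap F L y - r) / algebraMap F L y) := by
    rw [map_div₀, hr]
    field_simp
    ring
  have h2 : P.valuation L (z / algebraMap F L (y / m) - 1) ≤ P.valuation L ((p : L) ^ M) := by
    rw [h1, Valuation.map_neg, map_div₀, hyr, hb, div_eq_mul_inv, ← WithZero.exp_neg]
    calc P.valuation L (algebraMap F L y - r) * WithZero.exp (-a) ≤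
        WithZero.exp (-(N' : ℤ)) * WithZero.exp (-a) := mul_le_mul' hy le_rfl
      _ = WithZero.exp (-(N' : ℤ) - a) := by rw [← WithZero.exp_add, sub_eq_add_neg]
      _ ≤ WithZero.exp b := WithZero.exp_le_exp.2 hN2
  have h3 := hM _ h2
  have h4 : z = algebraMap F L (y / m) * (z / algebraMap F L (y / m)) := by
    rw [mul_div_cancel₀ _ hx0']
  have h5 : lam Lg P z = lam Lg P (algebraMap F L (y / m)) + lam Lg P (z / algebraMap F L (y / m)) := by
    conv_lhs => rw [h4]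
    exact (hQ p hp2 Lg hL L P hPp).1 _ _ hx0' (div_ne_zero hz hx0')
  rw [h5, lam_base hS hQ hN hp2 hL hζ hK hd hvp hv hP hx0, add_sub_cancel_left]
  exact h3

end Pool.Agent.Q16.GK.GS
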